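import Pool.Agent.U280.OD.Stm

/-!
# Project OD, package A1: scalar integrals
-/

set_option autoImplicit false

open MeasureTheory Set Filter Topology

namespace Pool.Agent.U399.OD.A1

open Pool.Agent.U280.OD

/-- the function `√τ exp (-τ l)`, zero for `τ ≤ 0` -/
noncomputable def f (l τ : ℝ) : ℝ := Real.sqrt τ * Real.exp (-(τ * l))

lemma f_zero (l τ : ℝ) (h : τ ≤ 0) : f l τ = 0 := by
  simp [f, Real.sqrt_eq_zero_of_nonpos h]

lemma gamma32 : Real.Gamma (3 / 2) = Real.sqrt Real.pi / 2 := by
  have h : (3 / 2 : ℝ) = 1 / 2 + 1 := by norm_num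
  rw [h, Real.Gamma_add_one (by norm_num), Real.Gamma_one_half_eq]
  ring

lemma J_eq (l : ℝ) (hl : 0 < l) : ∫ τ in Ioi (0 : ℝ), f l τ = Real.sqrt Real.pi / (2 * (l * Real.sqrt l)) := by
  have h := Real.integral_rpow_mul_exp_neg_mul_Ioi (a := 3 / 2) (r := l) (by norm_num) hl
  have e : ∫ τ in Ioi (0 : ℝ), f l τ = ∫ t in Ioi (0 : ℝ), t ^ ((3 / 2 : ℝ) - 1) * Real.exp (-(l * t)) := by
    refine setIntegral_congr_fun measurableSet_Ioi fun t _ => ?_
    show f l t = _
    rw [f, Real.sqrt_eq_rpow, mul_comm t l]
    norm_num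
  rw [e, h, gamma32]
  have h2 : (1 / l) ^ (3 / 2 : ℝ) = 1 / (l * Real.sqrt l) := by
    rw [Real.div_rpow zero_le_one hl.le, Real.one_rpow]
    congr 1
    have h3 : (3 / 2 : ℝ) = 1 + 1 / 2 := by norm_num
    rw [h3, Real.rpow_add hl, Real.rpow_one, Real.sqrt_eq_rpow]
  rw [h2]
  have : 0 < l * Real.sqrt l := by positivity
  field_simp

lemma f_int (l : ℝ) (hl : 0 < l) : Integrable (f l) := by
  have h1 : IntegrableOn (f l) (Ioi 0) := by
    by_contra hc
    have h2 := integral_undef hc
    have h3 := J_eq l hl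
    rw [h2] at h3
    have : 0 < Real.sqrt Real.pi / (2 * (l * Real.sqrt l)) := by positivity
    linarith
  rwa [integrableOn_iff_integrable_of_support_subset] at h1
  intro τ hτ
  by_contra hc
  exact hτ (f_zero l τ (not_lt.mp hc))

lemma f_integral (l : ℝ) (hl : 0 < l) : ∫ τ, f l τ = Real.sqrt Real.pi / (2 * (l * Real.sqrt l)) := by
  rw [← J_eq l hl]
  symm
  refine setIntegral_eq_integral_of_forall_compl_eq_zero fun τ hτ => f_zero l τ (not_lt.mp hτ)

lemma phi_mu (s l τ : ℝ) (hτ : 0 < τ) :
    phi (τ / s) * mu τ l = (2 * (l * Real.sqrt l) / Real.sqrt Real.pi) *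
      (f l τ - Real.exp (-(s * l)) * f l (τ - s)) := by
  have h1 : Real.sqrt τ * Real.sqrt (1 - 1 / (τ / s)) = Real.sqrt (τ - s) := by
    rw [← Real.sqrt_mul hτ.le]
    congr 1
    field_simp
  have h2 : Real.exp (-(s * l)) * Real.exp (-((τ - s) * l)) = Real.exp (-(τ * l)) := by
    rw [← Real.exp_add]
    congr 1
    ring
  have h3 : Real.exp (-(s * l)) * f l (τ - s) = Real.sqrt (τ - s) * Real.exp (-(τ * l)) := by
    rw [f, ← h2]
    ring
  rw [h3, ← h1, phi, mu, f]
  ring

theorem t_A1 : S_A1 := by
  constructor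
  · intro s l hs hl
    rcases hl.eq_or_lt with h0 | hl
    · subst h0
      have : (fun τ => phi (τ / s) * mu τ 0) = fun _ => (0 : ℝ) := by
        funext τ
        simp [mu]
      rw [this]
      simp
    · have hg : Integrable (fun τ => f l (τ - s)) := (f_int l hl).comp_sub_right s
      have hI : Integrable (fun τ => (2 * (l * Real.sqrt l) / Real.sqrt Real.pi) *
          (f l τ - Real.exp (-(s * l)) * f l (τ - s))) :=
        ((f_int l hl).sub (hg.const_mul _)).const_mul _
      constructor
      · refine (hI.integrableOn (s := Ioi 0)).congr_fun (fun τ hτ => ?_) measurableSet_Ioi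
        exact (phi_mu s l τ hτ).symm
      · rw [setIntegral_congr_fun measurableSet_Ioi fun τ hτ => phi_mu s l τ hτ,
          setIntegral_eq_integral_of_forall_compl_eq_zero, integral_const_mul,
          integral_sub (f_int l hl) (hg.const_mul _), integral_const_mul,
          integral_sub_right_eq_self (f l) s, f_integral l hl]
        · have : 0 < l * Real.sqrt l := by positivity
          have : 0 < Real.sqrt Real.pi := by positivity
          field_simp
        · intro τ hτ
          have h : τ ≤ 0 := not_lt.mp fun h => hτ h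
          rw [f_zero l τ h, f_zero l (τ - s) (by linarith)]
          simp
  · intro l hl
    rcases hl.eq_or_lt with h0 | hl
    · subst h0
      simp [mu]
    · have h := Real.integral_rpow_mul_exp_neg_mul_Ioi (a := 2) (r := 2 * l) (by norm_num) (by positivity)
      have e : ∀ τ ∈ Ioi (0 : ℝ), mu τ l ^ 2 = 4 * l ^ 3 * (τ ^ ((2 : ℝ) - 1) * Real.exp (-(2 * l * τ))) := by
        intro τ hτ
        have h1 : Real.exp (-(τ * l)) ^ 2 = Real.exp (-(2 * l * τ)) := by
          rw [← Real.exp_nat_mul]
          congr 1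
          push_cast
          ring
        have h2 : τ ^ ((2 : ℝ) - 1) = τ := by norm_num
        rw [h2, ← h1, mu, mul_pow, mul_pow, mul_pow, mul_pow, Real.sq_sqrt (le_of_lt hτ), Real.sq_sqrt hl.le]
        ring
      have hval : ∫ τ in Ioi (0 : ℝ), mu τ l ^ 2 = l := by
        rw [setIntegral_congr_fun measurableSet_Ioi e, integral_const_mul, h]
        have : Real.Gamma 2 = 1 := by
          rw [show (2 : ℝ) = 1 + 1 by norm_num, Real.Gamma_add_one one_ne_zero, Real.Gamma_one]
          norm_num
        rw [this]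
        norm_num
        field_simp
        norm_num
      have hint : IntegrableOn (fun τ => mu τ l ^ 2) (Ioi 0) := by
        by_contra hc
        have h2 := integral_undef hc
        rw [hval] at h2
        linarith
      rw [← ofReal_integral_eq_lintegral_ofReal hint (Filter.Eventually.of_forall fun τ => sq_nonneg _), hval]

end Pool.Agent.U399.OD.A1
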